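import Pool.Agent.Q198.CC.L12

/-!
# The exact range of Cramér's constant under limited independence

In Cramér's random model every integer `n ≥ 3` is put into a random set `A` with probability
`1 / log n`, independently, and the limit superior `L(A)` of the gaps of `A`, divided by the square
of the logarithm, is almost surely equal to `1`; this is the origin of Cramér's conjecture. In a
model with independence of order `κ` the events `n ∈ A` have the same probabilities, but only the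
sets `T` of events with at most `κ n` elements for all `n ∈ T` are required to be independent
(this is the information in the correlations of order `κ`).

The theorem determines the possible values of `L(A)` when `κ n ~ c log n`. Put
`Λ(c) = (c / 2) exp (2 / c - 1)` for `c < 2` and `Λ(c) = 1` for `c ≥ 2`.

(1) If `κ n ≥ (c - o(1)) log n`, then in EVERY model of order `κ` almost surely
    `min(1, c / 4) ≤ L(A) ≤ Λ(c)`. More precisely, for `λ < min(1, c / 4)` every interval `(0, X]`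
    with `X` large contains an interval of length `λ log² X` without elements of `A`, and for
    `λ > Λ(c)` every interval `(x, x + λ log² x]` with `x` large contains an element of `A`.
(2) If `κ n ≤ (c + o(1)) log n`, `c ≥ 0`, then every real number `l > 0` with
    `min(1, c / 4) ≤ l`, and with `l ≤ Λ(c)` if `c > 0`, is the almost sure value of `L(A)` in some
    model of order `κ`.
(3) Consequently, if `κ n / log n → c > 0`, then the values of Cramér's constant in the models of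
    order `κ` are exactly the numbers of the interval `[min(1, c / 4), Λ(c)]`; `L(A) = 1` almost
    surely in all models if and only if `c ≥ 4`; and `L(A) ≤ 1` almost surely in all models if and
    only if `c ≥ 2`.
-/

set_option autoImplicit false

namespace Pool.Agent.Results.MP_b0c12c_nt.ExactRange

open MeasureTheory Filter Topology

/-- Cramér's model with independence of order `κ`: `E n` is the event that the integer `n` belongs
to the random set. For every finite set `T` of integers `n ≥ 3` with at most `κ n` elements for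
all `n ∈ T`, the probability that `T` is contained in the random set is `∏ 1 / log n`. -/
structure CramerModel {Ω : Type} [MeasurableSpace Ω] (P : Measure Ω) (κ : ℕ → ℕ)
    (E : ℕ → Set Ω) : Prop where
  meas : ∀ n, MeasurableSet (E n)
  indep : ∀ T : Finset ℕ, (∀ n ∈ T, 3 ≤ n ∧ T.card ≤ κ n) →
    P (⋂ n ∈ T, E n) = ENNReal.ofReal (∏ n ∈ T, 1 / Real.log n)

/-- Cramér's constant of an infinite set `A` with the elements `a 0 < a 1 < …`: the limit superior
of `(a (k + 1) - a k) / (log (a k)) ^ 2`, an extended real number. -/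
noncomputable def cramerConst (A : Set ℕ) : EReal :=
  limsup (fun k : ℕ => ((((Nat.nth (· ∈ A) (k + 1) : ℝ) - Nat.nth (· ∈ A) k) /
    Real.log (Nat.nth (· ∈ A) k) ^ 2 : ℝ) : EReal)) atTop

/-- the upper end of the range -/
noncomputable def Lambda (c : ℝ) : ℝ := if c < 2 then c / 2 * Real.exp (2 / c - 1) else 1

/-- `l` is the almost sure value of Cramér's constant in some model of order `κ` -/
def IsValue (κ : ℕ → ℕ) (l : ℝ) : Prop :=
  ∃ (Ω : Type) (_ : MeasurableSpace Ω) (P : Measure Ω) (_ : IsProbabilityMeasure P)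
    (E : ℕ → Set Ω), CramerModel P κ E ∧
      ∀ᵐ ω ∂P, {n | ω ∈ E n}.Infinite ∧ cramerConst {n | ω ∈ E n} = (l : EReal)

lemma Lambda_eq (c : ℝ) : Lambda c = Q198.CC.Lam c := by
  unfold Lambda
  split_ifs with h
  · rw [Q198.CC.Lam_of_le h.le]
    congr 3
    rw [one_div, inv_div]
  · rw [Q198.CC.Lam_of_ge (not_lt.1 h)]

lemma isValue_iff (κ : ℕ → ℕ) (l : ℝ) : IsValue κ l ↔ Q198.CC.Att κ l := by
  constructor
  · rintro ⟨Ω, mΩ, P, hP, E, hM, hE⟩
    exact ⟨Ω, mΩ, P, hP, E, ⟨hM.meas, hM.indep⟩, hE⟩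
  · rintro ⟨Ω, mΩ, P, hP, E, hM, hE⟩
    exact ⟨Ω, mΩ, P, hP, E, ⟨hM.meas, hM.indep⟩, hE⟩

theorem result :
    (∀ (κ : ℕ → ℕ) (c : ℝ), 0 < c →
      (∀ ε : ℝ, 0 < ε → ∀ᶠ n : ℕ in atTop, (c - ε) * Real.log n ≤ κ n) →
      ∀ (Ω : Type) [MeasurableSpace Ω] (P : Measure Ω) [IsProbabilityMeasure P] (E : ℕ → Set Ω),
        CramerModel P κ E → ∀ᵐ ω ∂P, {n | ω ∈ E n}.Infinite ∧
          ((min 1 (c / 4) : ℝ) : EReal) ≤ cramerConst {n | ω ∈ E n} ∧
          cramerConst {n | ω ∈ E n} ≤ (Lambda c : EReal) ∧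
          (∀ lam : ℝ, lam < min 1 (c / 4) → ∀ᶠ X : ℕ in atTop,
            ∃ x : ℕ, (x : ℝ) + lam * Real.log X ^ 2 ≤ X ∧
              ∀ n : ℕ, x < n → (n : ℝ) ≤ x + lam * Real.log X ^ 2 → ω ∉ E n) ∧
          (∀ lam : ℝ, Lambda c < lam → ∀ᶠ x : ℕ in atTop,
            ∃ n : ℕ, x < n ∧ (n : ℝ) ≤ x + lam * Real.log x ^ 2 ∧ ω ∈ E n)) ∧
    (∀ (κ : ℕ → ℕ) (c l : ℝ), 0 ≤ c →
      (∀ ε : ℝ, 0 < ε → ∀ᶠ n : ℕ in atTop, (κ n : ℝ) ≤ (c + ε) * Real.log n) →
      0 < l → min 1 (c / 4) ≤ l → (0 < c → l ≤ Lambda c) → IsValue κ l) ∧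
    (∀ (κ : ℕ → ℕ) (c : ℝ), 0 < c →
      Tendsto (fun n : ℕ => (κ n : ℝ) / Real.log n) atTop (𝓝 c) →
      (∀ l : ℝ, IsValue κ l ↔ min 1 (c / 4) ≤ l ∧ l ≤ Lambda c) ∧
      ((∀ (Ω : Type) [MeasurableSpace Ω] (P : Measure Ω) [IsProbabilityMeasure P] (E : ℕ → Set Ω),
        CramerModel P κ E → ∀ᵐ ω ∂P, cramerConst {n | ω ∈ E n} = 1) ↔ 4 ≤ c) ∧
      ((∀ (Ω : Type) [MeasurableSpace Ω] (P : Measure Ω) [IsProbabilityMeasure P] (E : ℕ → Set Ω),
        CramerModel P κ E → ∀ᵐ ω ∂P, cramerConst {n | ω ∈ E n} ≤ 1) ↔ 2 ≤ c)) := by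
  refine ⟨fun κ c hc hκ Ω mΩ P hP E hM => ?_, fun κ c l hc hκ hl0 hl1 hl2 => ?_,
    fun κ c hc h => ⟨fun l => ?_, ?_, ?_⟩⟩
  · have hM' : Q198.CI.Model P κ E := ⟨hM.meas, hM.indep⟩
    rw [Lambda_eq]
    filter_upwards [Q198.CC.all_range hM' hc hκ, Q198.CC.all_lower hM' hκ,
      Q198.CC.all_upper hM' hc hκ] with ω h1 h2 h3
    exact ⟨h1.1, h1.2.1, h1.2.2, h2, h3⟩
  · rw [isValue_iff]
    rw [Lambda_eq] at hl2
    exact Q198.CC.att_of hc hκ hl0 hl1 hl2
  · rw [isValue_iff, Lambda_eq]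
    exact Q198.CC.att_iff hc h l
  · rw [← Q198.CC.all_one_iff hc h]
    constructor
    · intro h1 Ω mΩ P hP E hM
      exact h1 Ω P E ⟨hM.meas, hM.indep⟩
    · intro h1 Ω mΩ P hP E hM
      exact h1 Ω mΩ P hP E ⟨hM.meas, hM.indep⟩
  · rw [← Q198.CC.all_le_one_iff hc h]
    constructor
    · intro h1 Ω mΩ P hP E hM
      exact h1 Ω P E ⟨hM.meas, hM.indep⟩
    · intro h1 Ω mΩ P hP E hM
      exact h1 Ω mΩ P hP E ⟨hM.meas, hM.indep⟩

end Pool.Agent.Results.MP_b0c12c_nt.ExactRange
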