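import Pool.Agent.Q120.SX.Main2
import Pool.Agent.Q120.SX.SPD2
import Pool.Agent.Q120.SI.Entb
import Pool.Agent.Q38.SI.CEL
import Pool.Agent.Q252.SI.DET
import Pool.Agent.Q151.SI.Cnt
import Pool.Agent.Q151.SI.Upb
import Pool.Agent.Q151.SI.Detb
import Pool.Agent.Q151.SI.Mixb
import Pool.Agent.Q151.SI.Tlt
import Pool.Agent.Q299.RZ.Tail
import Pool.Agent.Q299.RZ.Kl
import Pool.Agent.Q38.SX.SPL
import Pool.Agent.Q177.SX.SPU
import Pool.Agent.Q177.SX.SPE
import Pool.Agent.Q195.SX.SPH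

/-!
# The limit points of consecutive gaps, for all random sets near Cramér's model

`A` is any random set of integers, `relEntropy μ A (block k)` the relative entropy (nats) of the law of `A ∩ [2 ^ k, 2 ^ (k + 1))` with
respect to Cramér's model; `a_1 < a_2 < …` are its elements. `LimPts m A` is the set of the limit points of the vectors
`(a_(n+1) - a_n, …, a_(n+m) - a_(n+m-1)) / log ^ 2 a_n`, `Simp m s` the simplex `{c ≥ 0 : ∑ c i ≤ s}`, and `Exact s A` says that for all `m`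
`LimPts m A = Simp m s` and `a_(n+m) - a_n ≤ (s + o(1)) log ^ 2 a_n`.
-/

set_option autoImplicit false

namespace Pool.Agent.Results.MP_b0c12c_nt.LimitPointsAtAllLevels

open Filter Pool.Agent.Q120.SP Pool.Agent.Q120.LG Pool.Agent.Q120.SX

theorem jobs : XJobs where
  si := {
    tail := Q299.RZ.t_TAIL
    kl := Q299.RZ.t_KL
    entb := Pool.Agent.Q120.SI.entb
    cel := Pool.Agent.Q38.SI.t_CEL
    det := Pool.Agent.Q252.SI.t_DET
    cnt := Pool.Agent.Q151.SI.t_CNT
    upb := Pool.Agent.Q151.SI.t_UPB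
    detb := Pool.Agent.Q151.SI.t_DETB
    mixb := Pool.Agent.Q151.SI.t_MIXB
    tlt := Pool.Agent.Q151.SI.t_TLT }
  spl := Pool.Agent.Q38.SX.t_SPL
  spu := Pool.Agent.Q177.SX.t_SPU
  sph := Pool.Agent.Q195.SX.t_SPH
  spd := Pool.Agent.Q120.SX.t_SPD2
  spe := Pool.Agent.Q177.SX.t_SPE

/-- (1) For every sequence `d ≥ 0` all random sets with relative entropies at most `d k` almost surely have `Exact 1` (the
multidimensional form of Cramér's conjecture) iff `∑ d k / k < ∞`. (2) For `0 ≤ δ < 1` and `s ≥ 0` all random sets of level `δ` (relative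
entropies at most `2 ^ ((δ + o(1)) k)`) almost surely have `Simp m s ⊆ LimPts m A` for all `m` iff `s ≤ 1 - δ`, and some random set of
level `δ` almost surely has `Exact (1 - δ)`. -/
theorem result :
    (∀ d : ℕ → ℝ, (∀ k, 0 ≤ d k) → (AllModels d (Exact 1) ↔ Summable (fun k : ℕ => d k / k))) ∧
    ∀ δ : ℝ, 0 ≤ δ → δ < 1 →
      (∀ s : ℝ, 0 ≤ s → (AllLevel δ (fun S => ∀ m : ℕ, Simp m s ⊆ LimPts m S) ↔ s ≤ 1 - δ)) ∧ SomeLevel δ (Exact (1 - δ)) :=
  main jobs

end Pool.Agent.Results.MP_b0c12c_nt.LimitPointsAtAllLevels
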