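import Mathlib
import Pool.Agent.Q273.CG.Pat2

set_option autoImplicit false

/-!
# Primes and record gaps in every prescribed pattern along the dilates of a sequence

There is an absolute constant `C > 1` with the following property. Let `x_n → ∞` be any sequence of
positive numbers with `x_{n+1} ≥ x_n^C` for all large `n`, and let `S` be ANY set of indices. For
most `α` in the sense of Hausdorff dimension, for all large `n` the integer part of `α x_n` is a
prime number if `n ∈ S`, while `α x_n` lies in the middle of a prime gap of the record length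
`≥ c f(x_n)` if `n ∉ S`: the dimension of the set of these `α` in any interval is at least `1 - ε`
with `c = c(ε)`, and it is `1` if `c` may depend on `α`.
-/

open Filter Topology

namespace Pool.Agent.Results.MP_b0c12c_nt.PrescribedPattern

/-- The record scale `f(x) = log x (log₂ x)² log₄ x / (log₃ x)²` (iterated natural logarithms). -/
noncomputable def f (x : ℝ) : ℝ :=
  Real.log x * (Real.log (Real.log x)) ^ 2 * Real.log (Real.log (Real.log (Real.log x))) /
    (Real.log (Real.log (Real.log x))) ^ 2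

/-- Every prime is at a distance greater than `H` from the real number `y`. -/
def Far (H y : ℝ) : Prop := ∀ q : ℕ, q.Prime → H < |(q : ℝ) - y|

/-- The first part relates `Far` to gaps between consecutive primes: `Nat.nth Nat.Prime m` is the
prime with index `m`, counted from `0`. -/
theorem result :
    (∀ H y : ℝ, 2 ≤ y → Far H y → ∃ m : ℕ,
      (Nat.nth Nat.Prime m : ℝ) ≤ y ∧ y ≤ (Nat.nth Nat.Prime (m + 1) : ℝ) ∧
      2 * H < (Nat.nth Nat.Prime (m + 1) : ℝ) - (Nat.nth Nat.Prime m : ℝ)) ∧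
    ∃ C : ℝ, 1 < C ∧ (∀ ε : ℝ, 0 < ε → ε < 1 → ∃ c : ℝ, 0 < c ∧
      ∀ x : ℕ → ℝ, (∀ n, 0 < x n) → Tendsto x atTop atTop →
      (∀ᶠ n in atTop, (x n) ^ C ≤ x (n + 1)) →
      ∀ S : Set ℕ, ∀ u v : ℝ, 0 < u → u < v → ENNReal.ofReal (1 - ε) ≤
        dimH {α : ℝ | u < α ∧ α < v ∧ ∀ᶠ n in atTop, (n ∈ S → (⌊α * x n⌋₊).Prime) ∧
          (n ∉ S → Far (c * f (x n)) (α * x n))}) ∧
      (∀ x : ℕ → ℝ, (∀ n, 0 < x n) → Tendsto x atTop atTop →
      (∀ᶠ n in atTop, (x n) ^ C ≤ x (n + 1)) →
      ∀ S : Set ℕ, ∀ u v : ℝ, 0 < u → u < v →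
        dimH {α : ℝ | u < α ∧ α < v ∧ ∃ c : ℝ, 0 < c ∧ ∀ᶠ n in atTop,
          (n ∈ S → (⌊α * x n⌋₊).Prime) ∧ (n ∉ S → Far (c * f (x n)) (α * x n))} = 1) :=
  ⟨fun _ _ hy h => Pool.Agent.Q273.CG.Far.gap hy h, Pool.Agent.Q273.CG.pattern_both⟩

end Pool.Agent.Results.MP_b0c12c_nt.PrescribedPattern
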