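import Pool.Agent.Q120.CL.C8
import Pool.Agent.Q210.MG.Low

/-!
# Cramér's constant in the sieved models of the primes as a function of the sieving level

`z : ℕ → ℕ` gives the level: on the block `2 ^ k ≤ n < 2 ^ (k + 1)` the random set contains each `n` without prime
factors `p < z k` independently with probability `1 / (V log n)` (at most `1`), `V = ∏_{p < z k} (1 - 1/p)`, and no other `n`.

`LL S` is the upper limit of `(p_(n+1) - p_n) / (log p_n)²` over the elements `p_n` of `S`.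
`Tk z k` is the length of the longest interval with at most `V (k log 2)²` numbers without prime factors `p < z`, and
`Lz z` the upper limit of `Tk (z k) k / (k log 2)²`.
-/

set_option autoImplicit false

namespace Pool.Agent.Results.MP_b0c12c_nt.SievingLevels

open Finset MeasureTheory Filter Pool.Agent.Q120.MG Pool.Agent.Q120.GM Pool.Agent.Q120.CL
open scoped Topology

variable {Ω : Type*} [MeasurableSpace Ω] {μ : Measure Ω} [IsProbabilityMeasure μ] {A : Ω → Set ℕ} {z w : ℕ → ℕ}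

theorem weaken {η : ℝ} (hη : 0 < η) (hz : ∀ᶠ k : ℕ in atTop, (z k : ℝ) ≤ (k : ℝ) ^ (1 - η)) :
    0 < min η 1 ∧ min η 1 ≤ 1 ∧ ∀ᶠ k : ℕ in atTop, (z k : ℝ) ≤ (k : ℝ) ^ (1 - min η 1) := by
  refine ⟨lt_min hη one_pos, min_le_right _ _, ?_⟩
  filter_upwards [hz, eventually_ge_atTop 1] with k h1 h2
  refine h1.trans (Real.rpow_le_rpow_of_exponent_le (by exact_mod_cast h2) ?_)
  have := min_le_left η 1
  linarith

theorem law (hA : IsModel μ (pr z) A) {η : ℝ} (hη : 0 < η) (hz : ∀ᶠ k : ℕ in atTop, (z k : ℝ) ≤ (k : ℝ) ^ (1 - η)) :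
    ∀ᵐ ω ∂μ, BlockLaw (A ω) z ∧ (A ω).Infinite ∧ LL (A ω) = Lz z := by
  obtain ⟨h1, h2, h3⟩ := weaken hη hz
  filter_upwards [block_ae Pool.Agent.Q210.MG.low hA h1 h2 h3] with ω h
  exact ⟨h, block_law h⟩

theorem below (hA : IsModel μ (pr z) A) (hz : Tendsto (fun k : ℕ => (z k : ℝ) / k) atTop (𝓝 0))
    (hwz : ∀ᶠ k : ℕ in atTop, w k ≤ z k) {η : ℝ} (hη : 0 < η) (hw : ∀ᶠ k : ℕ in atTop, (w k : ℝ) ≤ (k : ℝ) ^ (1 - η)) :
    ∀ᵐ ω ∂μ, (A ω).Infinite ∧ Lz w ≤ LL (A ω) := by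
  obtain ⟨h1, h2, h3⟩ := weaken hη hw
  filter_upwards [long_ae Pool.Agent.Q210.MG.low hA h1 h2 hz hwz h3, infinite_ae hA hz] with ω h h'
  exact ⟨h', long_ge h' h⟩

theorem gr_gt : 1 < gr := by
  unfold gr
  have h1 := Real.eulerMascheroniConstant_lt_two_thirds
  have h2 := Real.log_two_gt_d9
  have h3 : (1 : ℝ) / 2 < Real.exp (-Real.eulerMascheroniConstant) := by
    rw [← Real.log_lt_iff_lt_exp (by norm_num), one_div, Real.log_inv]
    linarith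
  linarith

/-- The critical level: if the level is not `(log x) ^ o(1)`, the constant is larger than one. -/
theorem above (hA : IsModel μ (pr z) A) (hz : Tendsto (fun k : ℕ => (z k : ℝ) / k) atTop (𝓝 0))
    (hno : ¬ Tendsto (fun k : ℕ => Real.log (z k) / Real.log k) atTop (𝓝 0)) :
    ∃ c : ℝ, 1 < c ∧ ∀ᵐ ω ∂μ, (c : EReal) ≤ LL (A ω) := by
  obtain ⟨w, hw⟩ : ∃ w : ℕ → ℕ, w = fun k => min (z k) ⌊(k : ℝ) ^ ((1 : ℝ) / 2)⌋₊ := ⟨_, rfl⟩
  have hw1 : ∀ k, w k ≤ z k := by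
    intro k
    rw [hw]
    exact min_le_left _ _
  have hw2 : ∀ k : ℕ, (w k : ℝ) ≤ (k : ℝ) ^ (1 - (1 / 2 : ℝ)) := by
    intro k
    have h1 : w k ≤ ⌊(k : ℝ) ^ ((1 : ℝ) / 2)⌋₊ := by
      rw [hw]
      exact min_le_right _ _
    have h2 : (w k : ℝ) ≤ (⌊(k : ℝ) ^ ((1 : ℝ) / 2)⌋₊ : ℝ) := by exact_mod_cast h1
    refine h2.trans ((Nat.floor_le (by positivity)).trans (le_of_eq ?_))
    norm_num
  have hne : Lz w ≠ 1 := by
    intro hcon
    have h1 := (Lz_iff w).1 hcon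
    apply hno
    refine h1.congr' ?_
    have h2 : ∀ᶠ k : ℕ in atTop, (k : ℝ) ^ ((1 : ℝ) / 4) + 1 ≤ (k : ℝ) ^ ((1 : ℝ) / 2) := by
      have h3 := ((tendsto_rpow_atTop (show (0 : ℝ) < 1 / 4 by norm_num)).comp hcast).eventually_ge_atTop 2
      filter_upwards [h3, eventually_gt_atTop 0] with k h4 hk
      have hk0 : (0 : ℝ) < k := by exact_mod_cast hk
      have h4' : (2 : ℝ) ≤ (k : ℝ) ^ ((1 : ℝ) / 4) := h4
      have h5 : (k : ℝ) ^ ((1 : ℝ) / 2) = (k : ℝ) ^ ((1 : ℝ) / 4) * (k : ℝ) ^ ((1 : ℝ) / 4) := by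
        rw [← Real.rpow_add hk0]
        norm_num
      rw [h5]
      nlinarith
    filter_upwards [h1.eventually (ge_mem_nhds (show (0 : ℝ) < 1 / 4 by norm_num)), h2, eventually_ge_atTop 2] with k h3 h4 hk2
    have hk2' : (2 : ℝ) ≤ k := by exact_mod_cast hk2
    have hlk : 0 < Real.log (k : ℝ) := Real.log_pos (by linarith)
    rw [div_le_iff₀ hlk] at h3
    have h5 : (w k : ℝ) ≤ (k : ℝ) ^ ((1 : ℝ) / 4) := by
      rcases Nat.eq_zero_or_pos (w k) with h6 | h6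
      · rw [h6, Nat.cast_zero]
        positivity
      · have h7 : (0 : ℝ) < w k := by exact_mod_cast h6
        rw [← Real.log_rpow (by linarith)] at h3
        exact (Real.log_le_log_iff h7 (by positivity)).1 h3
    have h6 : w k < ⌊(k : ℝ) ^ ((1 : ℝ) / 2)⌋₊ := by
      have h7 := Nat.lt_floor_add_one ((k : ℝ) ^ ((1 : ℝ) / 2))
      have h8 : (w k : ℝ) < (⌊(k : ℝ) ^ ((1 : ℝ) / 2)⌋₊ : ℝ) := by linarith
      exact_mod_cast h8
    have h7 : w k = z k := by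
      rw [hw] at h6 ⊢
      simp only [] at h6 ⊢
      omega
    rw [h7]
  have hgt : 1 < Lz w := lt_of_le_of_ne (one_le_Lz w) (Ne.symm hne)
  obtain ⟨c, hc1, hc2⟩ := EReal.lt_iff_exists_real_btwn.1 hgt
  refine ⟨c, by exact_mod_cast hc1, ?_⟩
  filter_upwards [below hA hz (Eventually.of_forall hw1) (show (0 : ℝ) < 1 / 2 by norm_num) (Eventually.of_forall hw2)]
    with ω h
  exact hc2.le.trans h.2

/-- At the levels `(log x) ^ o(1)` the constant is one. -/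
theorem at_one (hA : IsModel μ (pr z) A) (h : Tendsto (fun k : ℕ => Real.log (z k) / Real.log k) atTop (𝓝 0)) :
    ∀ᵐ ω ∂μ, LL (A ω) = 1 := by
  have h1 : ∀ᶠ k : ℕ in atTop, (z k : ℝ) ≤ (k : ℝ) ^ (1 - (1 / 2 : ℝ)) := by
    filter_upwards [h.eventually (ge_mem_nhds (show (0 : ℝ) < 1 / 2 by norm_num)), eventually_ge_atTop 2] with k h3 hk2
    have hk2' : (2 : ℝ) ≤ k := by exact_mod_cast hk2
    have hlk : 0 < Real.log (k : ℝ) := Real.log_pos (by linarith)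
    rw [div_le_iff₀ hlk] at h3
    rcases Nat.eq_zero_or_pos (z k) with h6 | h6
    · rw [h6, Nat.cast_zero]
      positivity
    · have h7 : (0 : ℝ) < z k := by exact_mod_cast h6
      rw [← Real.log_rpow (by linarith)] at h3
      have h8 := (Real.log_le_log_iff h7 (by positivity)).1 h3
      refine h8.trans (le_of_eq ?_)
      norm_num
  filter_upwards [law hA (show (0 : ℝ) < 1 / 2 by norm_num) h1] with ω hω
  rw [hω.2.2]
  exact (Lz_iff z).2 h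

/-- **Cramér's constant and the sieving level.** -/
theorem result :
    -- the models exist
    (∀ z : ℕ → ℕ, IsModel (prodMeasure (pr z)) (pr z) (trueSet (ι := ℕ))) ∧
    -- all levels `z = o(log x)`: the constant is one if and only if the level is `(log x) ^ o(1)`
    (∀ (Ω : Type) (_ : MeasurableSpace Ω) (μ : Measure Ω) (_ : IsProbabilityMeasure μ) (A : Ω → Set ℕ) (z : ℕ → ℕ),
      Tendsto (fun k : ℕ => (z k : ℝ) / k) atTop (𝓝 0) → IsModel μ (pr z) A →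
        (Tendsto (fun k : ℕ => Real.log (z k) / Real.log k) atTop (𝓝 0) → ∀ᵐ ω ∂μ, LL (A ω) = 1) ∧
        (¬ Tendsto (fun k : ℕ => Real.log (z k) / Real.log k) atTop (𝓝 0) → ∃ c : ℝ, 1 < c ∧ ∀ᵐ ω ∂μ, (c : EReal) ≤ LL (A ω)) ∧
        ((∀ δ : ℝ, δ < 1 → ∃ᶠ k : ℕ in atTop, (k : ℝ) ^ δ ≤ z k) →
          ∀ᵐ ω ∂μ, ((2 * Real.exp (-Real.eulerMascheroniConstant) : ℝ) : EReal) ≤ LL (A ω)) ∧
        (∀ (w : ℕ → ℕ) (η : ℝ), 0 < η → (∀ᶠ k : ℕ in atTop, w k ≤ z k) → (∀ᶠ k : ℕ in atTop, (w k : ℝ) ≤ (k : ℝ) ^ (1 - η)) →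
          ∀ᵐ ω ∂μ, (A ω).Infinite ∧ Lz w ≤ LL (A ω))) ∧
    -- the exact value at all levels up to `(log x) ^ (1 - η)`, and the asymptotics of the maximal gaps of the blocks
    (∀ (Ω : Type) (_ : MeasurableSpace Ω) (μ : Measure Ω) (_ : IsProbabilityMeasure μ) (A : Ω → Set ℕ) (z : ℕ → ℕ) (η : ℝ),
      0 < η → (∀ᶠ k : ℕ in atTop, (z k : ℝ) ≤ (k : ℝ) ^ (1 - η)) → IsModel μ (pr z) A →
        ∀ᵐ ω ∂μ, BlockLaw (A ω) z ∧ (A ω).Infinite ∧ LL (A ω) = Lz z) ∧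
    -- the predicted constant: finiteness, monotonicity, uniform bounds
    (∀ (z : ℕ → ℕ) (η : ℝ), 0 < η → (∀ᶠ k : ℕ in atTop, (z k : ℝ) ≤ (k : ℝ) ^ (1 - η)) → Lz z < ⊤) ∧
    (∀ z : ℕ → ℕ, 1 ≤ Lz z) ∧
    (∀ z w : ℕ → ℕ, (∀ᶠ k : ℕ in atTop, z k ≤ w k) → Lz z ≤ Lz w) ∧
    (∀ ε : ℝ, 0 < ε → ∃ δ : ℝ, 0 < δ ∧ ∀ z : ℕ → ℕ, (∀ᶠ k : ℕ in atTop, (z k : ℝ) ≤ (k : ℝ) ^ δ) → Lz z ≤ ((1 + ε : ℝ) : EReal)) ∧
    (∀ δ : ℝ, 0 < δ → ∃ c : ℝ, 0 < c ∧ ∀ z : ℕ → ℕ, (∃ᶠ k : ℕ in atTop, (k : ℝ) ^ δ ≤ z k) → ((1 + c : ℝ) : EReal) ≤ Lz z) ∧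
    1 < 2 * Real.exp (-Real.eulerMascheroniConstant) ∧
    (∀ ε : ℝ, 0 < ε → ∃ δ : ℝ, δ < 1 ∧ ∀ z : ℕ → ℕ, (∀ᶠ k : ℕ in atTop, (z k : ℝ) ≤ k) →
      (∃ᶠ k : ℕ in atTop, (k : ℝ) ^ δ ≤ z k) → ((2 * Real.exp (-Real.eulerMascheroniConstant) - ε : ℝ) : EReal) ≤ Lz z) := by
  refine ⟨fun z => isModel (pr z) (pr_nonneg z) (pr_le_one z), ?_, ?_, ?_, one_le_Lz,
    fun z w h => Lz_mono h, fun ε hε => Lz_small hε, fun δ hδ => Lz_large hδ, gr_gt, fun ε hε => Lz_gran hε⟩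
  · intro Ω _ μ _ A z hz hA
    exact ⟨fun h => at_one hA h, fun h => above hA hz h, fun h => gran_ae hA hz h,
      fun w η hη hwz hw => below hA hz hwz hη hw⟩
  · intro Ω _ μ _ A z η hη hz hA
    exact law hA hη hz
  · intro z η hη hz
    exact Lz_top Pool.Agent.Q210.MG.low hη hz

end Pool.Agent.Results.MP_b0c12c_nt.SievingLevels
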